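import Mathlib

/-!
One-pass streaming algorithms for maximum submodular matching: no approximation factor below 2
is possible with `o(n^2)` bits of memory, in particular not with `n polylog n` bits.
-/

namespace Pool.Agent.Results.MP_eef58c_lc.MSMLowerBoundTwo

open MeasureTheory

/-- An edge on the vertex set `Fin n`: an unordered pair of vertices. -/
abbrev Edge (n : ℕ) := Sym2 (Fin n)

/-- `f` is a monotone submodular set function on the subsets of the edge set of `G`, with
`f ∅ = 0`. -/
structure MonoSubmod {n : ℕ} (G : SimpleGraph (Fin n)) (f : Finset (Edge n) → ℝ) : Prop where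
  empty : f ∅ = 0
  mono : ∀ A B : Finset (Edge n), A ⊆ B → (B : Set (Edge n)) ⊆ G.edgeSet → f A ≤ f B
  submod : ∀ A B : Finset (Edge n), (A : Set (Edge n)) ⊆ G.edgeSet →
    (B : Set (Edge n)) ⊆ G.edgeSet → f (A ∪ B) + f (A ∩ B) ≤ f A + f B

/-- `M` is a matching of `G`: a set of edges of `G`, no two of which share a vertex. -/
def IsMatching {n : ℕ} (G : SimpleGraph (Fin n)) (M : Finset (Edge n)) : Prop :=
  (M : Set (Edge n)) ⊆ G.edgeSet ∧ ∀ e ∈ M, ∀ e' ∈ M, e ≠ e' → ∀ v : Fin n, ¬ (v ∈ e ∧ v ∈ e')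

/-- The value oracle of `f` once exactly the edges in `arr` have arrived: it tells `f S` for every
set `S` of arrived edges, and nothing about `f` for any other set. -/
def oracle {n : ℕ} (f : Finset (Edge n) → ℝ) (arr : Finset (Edge n)) :
    Finset (Edge n) → Option ℝ :=
  fun S => if S ⊆ arr then some (f S) else none

/-- A deterministic one-pass streaming algorithm with `s` bits of memory on `n`-vertex graphs. The
memory content is a bit string of length `s`. When edge number `t` arrives, the new memory content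
is an arbitrary function of `t`, the old content, the new edge and the whole value oracle
restricted to the sets of edges that have arrived (the new one included). `held t σ` is the set of
edges that the memory content `σ` holds at time `t`; nothing is held at the start, and an edge can
enter memory only when it arrives. The output is an arbitrary set of edges held in memory at the
end, chosen with full access to the oracle. -/
structure DetAlg (n s : ℕ) where
  init : Fin s → Bool
  step : ℕ → (Fin s → Bool) → Edge n → (Finset (Edge n) → Option ℝ) → (Fin s → Bool)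
  held : ℕ → (Fin s → Bool) → Finset (Edge n)
  held_init : held 0 init = ∅
  held_step : ∀ t σ e O, held (t + 1) (step t σ e O) ⊆ insert e (held t σ)
  output : ℕ → (Fin s → Bool) → (Finset (Edge n) → Option ℝ) → Finset (Edge n)
  output_held : ∀ t σ O, output t σ O ⊆ held t σ

/-- The memory content after reading the edges in the list, when the first of them is edge number
`t`, the edges in `arr` have arrived before, and the memory content is `σ` at the start. -/
def DetAlg.run {n s : ℕ} (A : DetAlg n s) (f : Finset (Edge n) → ℝ) :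
    ℕ → Finset (Edge n) → (Fin s → Bool) → List (Edge n) → (Fin s → Bool)
  | _, _, σ, [] => σ
  | t, arr, σ, e :: l =>
      A.run f (t + 1) (insert e arr) (A.step t σ e (oracle f (insert e arr))) l

/-- The output of the algorithm on the stream `l` with the oracle of `f`. -/
def DetAlg.result {n s : ℕ} (A : DetAlg n s) (f : Finset (Edge n) → ℝ) (l : List (Edge n)) :
    Finset (Edge n) :=
  A.output l.length (A.run f 0 ∅ A.init l) (oracle f l.toFinset)

/-- The output is a matching `M` of `G` with `f M ≥ (1/α) max f M'`, the maximum over all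
matchings `M'` of `G`. -/
def DetAlg.Succeeds {n s : ℕ} (A : DetAlg n s) (α : ℝ) (G : SimpleGraph (Fin n))
    (f : Finset (Edge n) → ℝ) (l : List (Edge n)) : Prop :=
  IsMatching G (A.result f l) ∧
    ∀ M' : Finset (Edge n), IsMatching G M' → (1 / α) * f M' ≤ f (A.result f l)

/-- A randomized one-pass streaming algorithm with `s` bits of memory on `n`-vertex graphs: a random
choice of a deterministic one (the random seed costs no memory). -/
structure RandAlg (n s : ℕ) where
  Seed : Type
  [ms : MeasurableSpace Seed]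
  μ : Measure Seed
  [prob : IsProbabilityMeasure μ]
  alg : Seed → DetAlg n s

/-- The randomized algorithm `α`-approximates maximum submodular matching on all `n`-vertex graphs:
for every graph, every monotone submodular `f` and every order of the edges it succeeds with
probability at least `2/3`. -/
def RandAlg.Approximates {n s : ℕ} (A : RandAlg n s) (α : ℝ) : Prop :=
  ∀ (G : SimpleGraph (Fin n)) (f : Finset (Edge n) → ℝ), MonoSubmod G f →
    ∀ l : List (Edge n), l.Nodup → (∀ e, e ∈ l ↔ e ∈ G.edgeSet) →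
      ∃ B : Set A.Seed, @MeasurableSet _ A.ms B ∧ 2 / 3 ≤ A.μ B ∧
        ∀ ω ∈ B, (A.alg ω).Succeeds α G f l

/-! ### Basic facts about runs -/

section Run

variable {n s : ℕ} (A : DetAlg n s)

theorem run_append (f : Finset (Edge n) → ℝ) (l₁ l₂ : List (Edge n)) :
    ∀ (t : ℕ) (arr : Finset (Edge n)) (σ : Fin s → Bool),
      A.run f t arr σ (l₁ ++ l₂) =
        A.run f (t + l₁.length) (arr ∪ l₁.toFinset) (A.run f t arr σ l₁) l₂ := by
  induction l₁ with
  | nil => intro t arr σ; simp [DetAlg.run]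
  | cons e l ih =>
    intro t arr σ
    simp only [List.cons_append, DetAlg.run, List.length_cons, List.toFinset_cons]
    rw [ih]
    congr 1
    · ring
    · ext x; simp

theorem run_congr (f f' : Finset (Edge n) → ℝ) (l : List (Edge n)) :
    ∀ (t : ℕ) (arr : Finset (Edge n)) (σ : Fin s → Bool),
      (∀ S, S ⊆ arr ∪ l.toFinset → f S = f' S) → A.run f t arr σ l = A.run f' t arr σ l := by
  induction l with
  | nil => intro t arr σ _; simp [DetAlg.run]
  | cons e l ih =>
    intro t arr σ h
    simp only [DetAlg.run]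
    have h1 : oracle f (insert e arr) = oracle f' (insert e arr) := by
      funext S
      unfold oracle
      split_ifs with hS
      · rw [h S (hS.trans (by intro x; simp; tauto))]
      · rfl
    rw [h1]
    apply ih
    intro S hS
    apply h S
    intro x hx
    have := hS hx
    simp at this ⊢
    tauto

theorem held_run (f : Finset (Edge n) → ℝ) (l : List (Edge n)) :
    ∀ (t : ℕ) (arr : Finset (Edge n)) (σ : Fin s → Bool),
      A.held (t + l.length) (A.run f t arr σ l) ⊆ A.held t σ ∪ l.toFinset := by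
  induction l with
  | nil => intro t arr σ; simp [DetAlg.run]
  | cons e l ih =>
    intro t arr σ
    simp only [DetAlg.run, List.length_cons, List.toFinset_cons]
    have h1 := ih (t + 1) (insert e arr) (A.step t σ e (oracle f (insert e arr)))
    have h2 := A.held_step t σ e (oracle f (insert e arr))
    rw [show t + (l.length + 1) = t + 1 + l.length by ring]
    intro x hx
    have h3 := h1 hx
    rw [Finset.mem_union] at h3
    rcases h3 with h3 | h3
    · have h4 := h2 h3
      rw [Finset.mem_insert] at h4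
      simp only [Finset.mem_union, Finset.mem_insert]
      tauto
    · simp only [Finset.mem_union, Finset.mem_insert]
      tauto

end Run

/-! ### Counting -/


theorem card_consistent {K : Type} [Fintype K] [DecidableEq K] (D : Finset (K × Bool)) :
    (Finset.univ.filter (fun c : K → Bool => ∀ kx ∈ D, c kx.1 = kx.2)).card * 2 ^ D.card ≤
      2 ^ Fintype.card K := by
  classical
  by_cases h : ∃ c₀ : K → Bool, ∀ kx ∈ D, c₀ kx.1 = kx.2
  · obtain ⟨c₀, hc₀⟩ := h
    have hD : D.card = (D.image Prod.fst).card := by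
      rw [Finset.card_image_of_injOn]
      intro a ha b hb hab
      have h1 := hc₀ a ha
      have h2 := hc₀ b hb
      apply Prod.ext hab
      rw [← h1, ← h2, hab]
    have hsub : Finset.univ.filter (fun c : K → Bool => ∀ kx ∈ D, c kx.1 = kx.2) ⊆
        Fintype.piFinset (fun k => if k ∈ D.image Prod.fst then {c₀ k} else Finset.univ) := by
      intro c hc
      simp only [Finset.mem_filter, Finset.mem_univ, true_and] at hc
      rw [Fintype.mem_piFinset]
      intro k
      split_ifs with hk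
      · rw [Finset.mem_image] at hk
        obtain ⟨kx, hkx, rfl⟩ := hk
        rw [Finset.mem_singleton, hc kx hkx, hc₀ kx hkx]
      · exact Finset.mem_univ _
    have hcard := Finset.card_le_card hsub
    rw [Fintype.card_piFinset] at hcard
    have hprod : ∏ k : K, (if k ∈ D.image Prod.fst then {c₀ k} else Finset.univ : Finset Bool).card =
        2 ^ (Finset.univ \ D.image Prod.fst).card := by
      rw [← Finset.prod_const, Finset.sdiff_eq_filter, Finset.prod_filter]
      apply Finset.prod_congr rfl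
      intro k _
      by_cases hk : k ∈ D.image Prod.fst
      · simp [hk]
      · simp [hk]
    rw [hprod] at hcard
    calc _ ≤ 2 ^ (Finset.univ \ D.image Prod.fst).card * 2 ^ D.card :=
          Nat.mul_le_mul_right _ hcard
      _ = 2 ^ Fintype.card K := by
          rw [← pow_add, hD, Finset.card_sdiff_add_card_eq_card (Finset.subset_univ _),
            Finset.card_univ]
  · push Not at h
    have : Finset.univ.filter (fun c : K → Bool => ∀ kx ∈ D, c kx.1 = kx.2) = ∅ := by
      rw [Finset.filter_eq_empty_iff]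
      intro c _ hc
      obtain ⟨kx, h1, h2⟩ := h c
      exact h2 (hc kx h1)
    rw [this]
    simp

theorem sum_card_le {K : Type} [Fintype K] [DecidableEq K] (s : ℕ)
    (st : (K → Bool) → (Fin s → Bool)) (D : (Fin s → Bool) → Finset (K × Bool))
    (h : ∀ c, ∀ kx ∈ D (st c), c kx.1 = kx.2) :
    ∑ c, ((D (st c)).card : ℝ) ≤ ((s : ℝ) + 1) * 2 ^ Fintype.card K := by
  classical
  have h1 : ∀ c, ((D (st c)).card : ℝ) ≤ s + 2 ^ (D (st c)).card / 2 ^ s := by
    intro c
    generalize (D (st c)).card = x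
    rcases le_or_gt x s with hx | hx
    · have : (x : ℝ) ≤ s := by exact_mod_cast hx
      have h2 : (0 : ℝ) ≤ 2 ^ x / 2 ^ s := by positivity
      linarith
    · obtain ⟨d, rfl⟩ := Nat.exists_eq_add_of_lt hx
      have h2 : (2 : ℝ) ^ (s + d + 1) / 2 ^ s = 2 ^ (d + 1) := by
        rw [add_assoc, pow_add, mul_div_assoc, mul_comm, div_mul_cancel₀ _ (by positivity)]
      rw [h2]
      have h3 : d + 1 < 2 ^ (d + 1) := Nat.lt_two_pow_self
      have h4 : ((d + 1 : ℕ) : ℝ) < ((2 ^ (d + 1) : ℕ) : ℝ) := by exact_mod_cast h3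
      push_cast at h4 ⊢
      linarith
  have h2 : ∑ c, ((2 : ℝ) ^ (D (st c)).card) ≤ 2 ^ s * 2 ^ Fintype.card K := by
    rw [← Finset.sum_fiberwise (s := Finset.univ) (g := st)]
    have h3 : ∀ σ : Fin s → Bool, ∑ c ∈ Finset.univ.filter (fun c => st c = σ),
        ((2 : ℝ) ^ (D (st c)).card) ≤ 2 ^ Fintype.card K := by
      intro σ
      have h4 : ∑ c ∈ Finset.univ.filter (fun c => st c = σ), ((2 : ℝ) ^ (D (st c)).card) =
          (Finset.univ.filter (fun c => st c = σ)).card * 2 ^ (D σ).card := by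
        rw [← nsmul_eq_mul, ← Finset.sum_const]
        apply Finset.sum_congr rfl
        intro c hc
        rw [Finset.mem_filter] at hc
        rw [hc.2]
      rw [h4]
      have h5 := card_consistent (D σ)
      have h6 : (Finset.univ.filter (fun c => st c = σ)).card ≤
          (Finset.univ.filter (fun c : K → Bool => ∀ kx ∈ D σ, c kx.1 = kx.2)).card := by
        apply Finset.card_le_card
        intro c hc
        rw [Finset.mem_filter] at hc ⊢
        refine ⟨hc.1, ?_⟩
        have := h c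
        rwa [hc.2] at this
      have h7 := le_trans (Nat.mul_le_mul_right (2 ^ (D σ).card) h6) h5
      exact_mod_cast h7
    calc _ ≤ ∑ σ : Fin s → Bool, (2 : ℝ) ^ Fintype.card K := Finset.sum_le_sum fun σ _ => h3 σ
      _ = 2 ^ s * 2 ^ Fintype.card K := by simp
  calc ∑ c, ((D (st c)).card : ℝ) ≤ ∑ c, ((s : ℝ) + 2 ^ (D (st c)).card / 2 ^ s) :=
        Finset.sum_le_sum fun c _ => h1 c
    _ = s * 2 ^ Fintype.card K + (∑ c, ((2 : ℝ) ^ (D (st c)).card)) / 2 ^ s := by
        rw [Finset.sum_add_distrib, ← Finset.sum_div]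
        simp
        ring
    _ ≤ s * 2 ^ Fintype.card K + (2 ^ s * 2 ^ Fintype.card K) / 2 ^ s := by gcongr
    _ = ((s : ℝ) + 1) * 2 ^ Fintype.card K := by
        rw [mul_div_assoc, mul_comm ((2 : ℝ) ^ s), div_mul_cancel₀ _ (by positivity)]
        ring

/-- Averaging over coordinate `i`. -/
theorem sum_update {p : ℕ} {Z : Type} [Fintype Z] [DecidableEq Z] (i : Fin p)
    (g : (Fin p → Z) → Z → ℝ) (hg : ∀ τ z y, g (Function.update τ i z) y = g τ y) :
    ∑ τ : Fin p → Z, ∑ y : Z, g τ y = (Fintype.card Z : ℝ) * ∑ τ : Fin p → Z, g τ (τ i) := by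
  have e : ∑ x : (Fin p → Z) × Z, g x.1 x.2 =
      ∑ x : (Fin p → Z) × Z, g (Function.update x.1 i x.2) (x.1 i) := by
    refine Finset.sum_nbij' (fun x => (Function.update x.1 i x.2, x.1 i))
      (fun x => (Function.update x.1 i x.2, x.1 i)) (by simp) (by simp) ?_ ?_ ?_
    · rintro ⟨τ, y⟩ _; simp
    · rintro ⟨τ, y⟩ _; simp
    · rintro ⟨τ, y⟩ _; simp
  rw [Fintype.sum_prod_type, Fintype.sum_prod_type] at e
  rw [e, Finset.mul_sum]
  apply Finset.sum_congr rfl
  intro τ _
  simp only [hg]
  simp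

/-! ### The hard instance -/

/-- 1 - product of q is monotone submodular -/
theorem prod_mono {ι : Type*} [DecidableEq ι] (q : ι → ℝ) (h0 : ∀ t, 0 ≤ q t) (h1 : ∀ t, q t ≤ 1) 
    (A B : Finset ι) (h : A ⊆ B) : ∏ t ∈ B, q t ≤ ∏ t ∈ A, q t := by
  rw [← Finset.prod_sdiff h]
  have h2 : ∏ t ∈ B \ A, q t ≤ 1 := Finset.prod_le_one (fun t _ => h0 t) (fun t _ => h1 t)
  have h3 : 0 ≤ ∏ t ∈ A, q t := Finset.prod_nonneg (fun t _ => h0 t)
  nlinarith

theorem prod_submod {ι : Type*} [DecidableEq ι] (q : ι → ℝ) (h0 : ∀ t, 0 ≤ q t) (h1 : ∀ t, q t ≤ 1) 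
    (A B : Finset ι) : ∏ t ∈ A, q t + ∏ t ∈ B, q t ≤ ∏ t ∈ A ∪ B, q t + ∏ t ∈ A ∩ B, q t := by
  have hA : ∏ t ∈ A, q t = (∏ t ∈ A \ B, q t) * ∏ t ∈ A ∩ B, q t := by
    rw [← Finset.prod_sdiff (Finset.inter_subset_left : A ∩ B ⊆ A)]
    congr 2
    ext x; simp
  have hB : ∏ t ∈ B, q t = (∏ t ∈ B \ A, q t) * ∏ t ∈ A ∩ B, q t := by
    rw [← Finset.prod_sdiff (Finset.inter_subset_right : A ∩ B ⊆ B)]
    congr 2
    ext x; simp
  have hU : ∏ t ∈ A ∪ B, q t = (∏ t ∈ A \ B, q t) * ((∏ t ∈ B \ A, q t) * ∏ t ∈ A ∩ B, q t) := by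
    rw [← hB, ← Finset.prod_union Finset.sdiff_disjoint]
    congr 1
    ext x; simp
  rw [hU, hA, hB]
  have x0 : 0 ≤ ∏ t ∈ A ∩ B, q t := Finset.prod_nonneg (fun t _ => h0 t)
  have y1 : ∏ t ∈ A \ B, q t ≤ 1 := Finset.prod_le_one (fun t _ => h0 t) (fun t _ => h1 t)
  have z1 : ∏ t ∈ B \ A, q t ≤ 1 := Finset.prod_le_one (fun t _ => h0 t) (fun t _ => h1 t)
  have := mul_nonneg x0 (mul_nonneg (sub_nonneg.2 y1) (sub_nonneg.2 z1))
  nlinarith

/-- Vertices of the hard instance. -/
abbrev Vtx (p m : ℕ) := Fin p × (ZMod m ⊕ (ZMod m × Bool))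

/-- Potential edges: phase, left vertex, shift, copy of the right vertex. -/
abbrev Pot (p m : ℕ) := Fin p × ZMod m × ZMod m × Bool

section
variable {n p m : ℕ} [NeZero m] (φ : Vtx p m ↪ Fin n)

/-- The edge of `Fin n` belonging to a potential edge. -/
def edge (t : Pot p m) : Sym2 (Fin n) :=
  s(φ (t.1, Sum.inl t.2.1), φ (t.1, Sum.inr (t.2.1 + t.2.2.1, t.2.2.2)))

theorem edge_injective : Function.Injective (edge φ) := by
  rintro ⟨i, a, y, x⟩ ⟨i', a', y', x'⟩ h
  simp only [edge, Sym2.eq_iff, φ.injective.eq_iff, Prod.mk.injEq, Sum.inl.injEq, Sum.inr.injEq,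
    reduceCtorEq, and_false, or_false] at h
  obtain ⟨⟨rfl, rfl⟩, _, h1, rfl⟩ := h
  simp at h1
  simp [h1]

theorem edge_not_diag (t : Pot p m) : ¬ (edge φ t).IsDiag := by
  simp [edge, Sym2.mk_isDiag_iff, φ.injective.eq_iff]

/-- Survival probabilities of the point of type `k` in copy `j`. -/
noncomputable def q (τ : Fin p → ZMod m) (j : ZMod m) (k : Fin p) (t : Pot p m) : ℝ :=
  if t.2.1 = j then
    (if t.2.2.1 = τ t.1 then (if t.1 = k then 0 else 1)
      else (if t.1 ≤ k then 1 - 1 / ((p : ℝ) - (t.1 : ℕ)) else 1))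
  else 1

theorem r_nonneg (i : Fin p) : 0 ≤ 1 - 1 / ((p : ℝ) - (i : ℕ)) := by
  have h : (i : ℕ) + 1 ≤ p := i.2
  have h' : ((i : ℕ) : ℝ) + 1 ≤ p := by exact_mod_cast h
  rw [sub_nonneg, div_le_one (by linarith)]
  linarith

theorem r_le_one (i : Fin p) : 1 - 1 / ((p : ℝ) - (i : ℕ)) ≤ 1 := by
  have h : (i : ℕ) + 1 ≤ p := i.2
  have h' : ((i : ℕ) : ℝ) + 1 ≤ p := by exact_mod_cast h
  have : 0 ≤ 1 / ((p : ℝ) - (i : ℕ)) := by
    apply div_nonneg zero_le_one; linarith
  linarith

theorem q_nonneg (τ : Fin p → ZMod m) (j : ZMod m) (k : Fin p) (t : Pot p m) : 0 ≤ q τ j k t := by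
  unfold q
  have := r_nonneg t.1
  split_ifs <;> first | exact le_rfl | exact zero_le_one | exact this

theorem q_le_one (τ : Fin p → ZMod m) (j : ZMod m) (k : Fin p) (t : Pot p m) : q τ j k t ≤ 1 := by
  unfold q
  have := r_le_one t.1
  split_ifs <;> first | exact le_rfl | exact zero_le_one | exact this

/-- The potential edges whose edge is in `S`. -/
def pots (S : Finset (Sym2 (Fin n))) : Finset (Pot p m) :=
  Finset.univ.filter (fun t => edge φ t ∈ S)

/-- The submodular function of the hard instance. -/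
noncomputable def F (τ : Fin p → ZMod m) (S : Finset (Sym2 (Fin n))) : ℝ :=
  (1 / (p : ℝ)) * ∑ j : ZMod m, ∑ k : Fin p, (1 - ∏ t ∈ pots φ S, q τ j k t)

theorem F_empty (τ : Fin p → ZMod m) : F φ τ ∅ = 0 := by
  simp [F, pots]

theorem F_mono (τ : Fin p → ZMod m) (A B : Finset (Sym2 (Fin n))) (h : A ⊆ B) :
    F φ τ A ≤ F φ τ B := by
  unfold F
  apply mul_le_mul_of_nonneg_left _ (by positivity)
  refine Finset.sum_le_sum fun j _ => Finset.sum_le_sum fun k _ => ?_
  have : pots φ A ⊆ pots φ B := by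
    intro t; simp only [pots, Finset.mem_filter, Finset.mem_univ, true_and]; exact fun ht => h ht
  have := prod_mono (q τ j k) (q_nonneg τ j k) (q_le_one τ j k) _ _ this
  linarith

theorem F_submod (τ : Fin p → ZMod m) (A B : Finset (Sym2 (Fin n))) :
    F φ τ (A ∪ B) + F φ τ (A ∩ B) ≤ F φ τ A + F φ τ B := by
  unfold F
  rw [← mul_add, ← mul_add, ← Finset.sum_add_distrib, ← Finset.sum_add_distrib]
  apply mul_le_mul_of_nonneg_left _ (by positivity)
  refine Finset.sum_le_sum fun j _ => ?_
  rw [← Finset.sum_add_distrib, ← Finset.sum_add_distrib]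
  refine Finset.sum_le_sum fun k _ => ?_
  have h1 : pots φ (A ∪ B) = pots φ A ∪ pots φ B := by
    ext t; simp [pots]
  have h2 : pots φ (A ∩ B) = pots φ A ∩ pots φ B := by
    ext t; simp [pots]
  rw [h1, h2]
  have := prod_submod (q τ j k) (q_nonneg τ j k) (q_le_one τ j k) (pots φ A) (pots φ B)
  linarith

theorem sum_split {p : ℕ} (i : Fin p) (g : Fin p → ℝ) :
    ∑ k, g k = ∑ k ∈ Finset.Iio i, g k + (g i + ∑ k ∈ Finset.Ioi i, g k) := by
  have h1 : (Finset.univ : Finset (Fin p)) = Finset.Iio i ∪ (insert i (Finset.Ioi i)) := by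
    ext k
    simp only [Finset.mem_univ, Finset.mem_union, Finset.mem_Iio, Finset.mem_insert,
      Finset.mem_Ioi, true_iff]
    rcases lt_trichotomy k i with h | h | h
    · exact Or.inl h
    · exact Or.inr (Or.inl h)
    · exact Or.inr (Or.inr h)
  have h2 : Disjoint (Finset.Iio i) (insert i (Finset.Ioi i)) := by
    rw [Finset.disjoint_left]
    intro k hk hk'
    simp only [Finset.mem_Iio, Finset.mem_insert, Finset.mem_Ioi] at hk hk'
    rcases hk' with rfl | hk'
    · exact lt_irrefl _ hk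
    · exact lt_asymm hk hk'
  rw [h1, Finset.sum_union h2, Finset.sum_insert (by simp)]

/-- The part of the survival probability of an earlier edge that does not depend on the type. -/
noncomputable def q' (τ : Fin p → ZMod m) (j : ZMod m) (t : Pot p m) : ℝ :=
  if t.2.1 = j then (if t.2.2.1 = τ t.1 then 1 else 1 - 1 / ((p : ℝ) - (t.1 : ℕ))) else 1

theorem copy_formula (τ : Fin p → ZMod m) (j : ZMod m) (i : Fin p) (T : Finset (Pot p m))
    (hT : ∀ t ∈ T, t.1 ≤ i)
    (hu : ∀ t ∈ T, ∀ t' ∈ T, t.1 = i → t'.1 = i → t.2.1 = t'.2.1 → t.2.2.1 = t'.2.2.1 → t = t') :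
    ∑ k : Fin p, (1 - ∏ t ∈ T, q τ j k t) =
      ∑ k ∈ Finset.Iio i, (1 - ∏ t ∈ T.filter (fun t => t.1 < i), q τ j k t) +
      ((p : ℝ) - (i : ℕ)) * (1 - (∏ t ∈ T.filter (fun t => t.1 < i), q' τ j t) *
        (1 - 1 / ((p : ℝ) - (i : ℕ))) ^ (T.filter (fun t => t.1 = i ∧ t.2.1 = j)).card) := by
  set r : ℝ := 1 - 1 / ((p : ℝ) - (i : ℕ)) with hr
  have hi : (i : ℕ) + 1 ≤ p := i.2
  have hi' : ((i : ℕ) : ℝ) + 1 ≤ p := by exact_mod_cast hi
  have hpr : ((p : ℝ) - (i : ℕ)) * r = (p : ℝ) - (i : ℕ) - 1 := by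
    rw [hr, mul_sub, mul_one, mul_one_div, div_self (by linarith)]
  -- split the product
  have hsplit : ∀ k, ∏ t ∈ T, q τ j k t =
      (∏ t ∈ T.filter (fun t => t.1 < i), q τ j k t) *
        ∏ t ∈ T.filter (fun t => t.1 = i ∧ t.2.1 = j), q τ j k t := by
    intro k
    rw [← Finset.prod_filter_mul_prod_filter_not T (fun t => t.1 < i)]
    congr 1
    rw [← Finset.prod_filter_mul_prod_filter_not (T.filter (fun t => ¬ t.1 < i))
      (fun t => t.2.1 = j)]
    have h1 : ∏ t ∈ (T.filter (fun t => ¬ t.1 < i)).filter (fun t => ¬ t.2.1 = j), q τ j k t = 1 := by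
      apply Finset.prod_eq_one
      intro t ht
      simp only [Finset.mem_filter] at ht
      unfold q
      rw [if_neg ht.2]
    rw [h1, mul_one]
    apply Finset.prod_congr _ (fun _ _ => rfl)
    ext t
    simp only [Finset.mem_filter]
    constructor
    · rintro ⟨⟨h2, h3⟩, h4⟩
      exact ⟨h2, le_antisymm (hT t h2) (not_lt.1 h3), h4⟩
    · rintro ⟨h2, h3, h4⟩
      exact ⟨⟨h2, by rw [h3]; exact lt_irrefl _⟩, h4⟩
  have hQ : ∀ k, i ≤ k → ∏ t ∈ T.filter (fun t => t.1 < i), q τ j k t =
      ∏ t ∈ T.filter (fun t => t.1 < i), q' τ j t := by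
    intro k hk
    apply Finset.prod_congr rfl
    intro t ht
    simp only [Finset.mem_filter] at ht
    have h1 : t.1 < k := lt_of_lt_of_le ht.2 hk
    unfold q q'
    rw [if_neg h1.ne, if_pos h1.le]
  set Q : ℝ := ∏ t ∈ T.filter (fun t => t.1 < i), q' τ j t with hQdef
  set U := T.filter (fun t => t.1 = i ∧ t.2.1 = j) with hU
  have hlt : ∀ k, k < i → ∏ t ∈ U, q τ j k t = 1 := by
    intro k hk
    apply Finset.prod_eq_one
    intro t ht
    simp only [hU, Finset.mem_filter] at ht
    unfold q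
    rw [if_pos ht.2.2, ht.2.1, if_neg hk.ne', if_neg (not_le.2 hk)]
    simp
  rw [sum_split i]
  have e1 : ∑ k ∈ Finset.Iio i, (1 - ∏ t ∈ T, q τ j k t) =
      ∑ k ∈ Finset.Iio i, (1 - ∏ t ∈ T.filter (fun t => t.1 < i), q τ j k t) := by
    apply Finset.sum_congr rfl
    intro k hk
    rw [Finset.mem_Iio] at hk
    rw [hsplit k, hlt k hk, mul_one]
  rw [e1]
  congr 1
  by_cases hh : ∃ t ∈ U, t.2.2.1 = τ i
  · obtain ⟨t₀, ht₀, hy⟩ := hh
    have ht₀' := ht₀
    simp only [hU, Finset.mem_filter] at ht₀'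
    have hi0 : ∏ t ∈ U, q τ j i t = 0 := by
      apply Finset.prod_eq_zero ht₀
      unfold q
      rw [if_pos ht₀'.2.2, ht₀'.2.1, if_pos hy, if_pos rfl]
    have hcard : U.card = (U.erase t₀).card + 1 := by
      rw [Finset.card_erase_of_mem ht₀]
      have : 0 < U.card := Finset.card_pos.2 ⟨t₀, ht₀⟩
      omega
    have hgt : ∀ k, i < k → ∏ t ∈ U, q τ j k t = r ^ (U.erase t₀).card := by
      intro k hk
      rw [← Finset.mul_prod_erase U _ ht₀]
      have h1 : q τ j k t₀ = 1 := by
        unfold q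
        rw [if_pos ht₀'.2.2, ht₀'.2.1, if_pos hy, if_neg hk.ne]
      rw [h1, one_mul, ← Finset.prod_const]
      apply Finset.prod_congr rfl
      intro t ht
      rw [Finset.mem_erase] at ht
      have ht2 := ht.2
      simp only [hU, Finset.mem_filter] at ht2
      have hne : ¬ t.2.2.1 = τ i := by
        intro h2
        apply ht.1
        exact hu t ht2.1 t₀ ht₀'.1 ht2.2.1 ht₀'.2.1 (ht2.2.2.trans ht₀'.2.2.symm) (h2.trans hy.symm)
      unfold q
      rw [if_pos ht2.2.2, ht2.2.1, if_neg hne, if_pos hk.le]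
    have e2 : ∑ k ∈ Finset.Ioi i, (1 - ∏ t ∈ T, q τ j k t) =
        ((p : ℝ) - (i : ℕ) - 1) * (1 - Q * r ^ (U.erase t₀).card) := by
      have : ∀ k ∈ Finset.Ioi i, (1 - ∏ t ∈ T, q τ j k t) = 1 - Q * r ^ (U.erase t₀).card := by
        intro k hk
        rw [Finset.mem_Ioi] at hk
        rw [hsplit k, hQ k hk.le, hgt k hk]
      rw [Finset.sum_congr rfl this, Finset.sum_const, Fin.card_Ioi, nsmul_eq_mul]
      congr 1
      rw [Nat.sub_sub, Nat.cast_sub (by omega)]
      push_cast
      ring
    rw [e2, hsplit i, hi0, hcard, pow_succ]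
    have : ((p : ℝ) - (i : ℕ)) * (1 - Q * (r ^ (U.erase t₀).card * r)) =
        ((p : ℝ) - (i : ℕ)) - Q * r ^ (U.erase t₀).card * (((p : ℝ) - (i : ℕ)) * r) := by ring
    rw [this, hpr]
    ring
  · push Not at hh
    have hge : ∀ k, i ≤ k → ∏ t ∈ U, q τ j k t = r ^ U.card := by
      intro k hk
      rw [← Finset.prod_const]
      apply Finset.prod_congr rfl
      intro t ht
      have h2 := hh t ht
      simp only [hU, Finset.mem_filter] at ht
      unfold q
      rw [if_pos ht.2.2, ht.2.1, if_neg h2, if_pos hk]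
    have e2 : ∑ k ∈ Finset.Ioi i, (1 - ∏ t ∈ T, q τ j k t) =
        ((p : ℝ) - (i : ℕ) - 1) * (1 - Q * r ^ U.card) := by
      have : ∀ k ∈ Finset.Ioi i, (1 - ∏ t ∈ T, q τ j k t) = 1 - Q * r ^ U.card := by
        intro k hk
        rw [Finset.mem_Ioi] at hk
        rw [hsplit k, hQ k hk.le, hge k hk.le]
      rw [Finset.sum_congr rfl this, Finset.sum_const, Fin.card_Ioi, nsmul_eq_mul]
      congr 1
      rw [Nat.sub_sub, Nat.cast_sub (by omega)]
      push_cast
      ring
    rw [e2, hsplit i, hQ i le_rfl, hge i le_rfl]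
    ring

theorem F_congr (τ τ' : Fin p → ZMod m) (i : Fin p) (hτ : ∀ i', i' < i → τ i' = τ' i')
    (S : Finset (Sym2 (Fin n))) (hT : ∀ t ∈ pots φ S, t.1 ≤ i)
    (hu : ∀ t ∈ pots φ S, ∀ t' ∈ pots φ S, t.1 = i → t'.1 = i → t.2.1 = t'.2.1 →
      t.2.2.1 = t'.2.2.1 → t = t') :
    F φ τ S = F φ τ' S := by
  unfold F
  congr 1
  apply Finset.sum_congr rfl
  intro j _
  rw [copy_formula τ j i _ hT hu, copy_formula τ' j i _ hT hu]
  congr 1
  · apply Finset.sum_congr rfl
    intro k _
    congr 1
    apply Finset.prod_congr rfl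
    intro t ht
    simp only [Finset.mem_filter] at ht
    unfold q
    rw [hτ t.1 ht.2]
  · congr 3
    apply Finset.prod_congr rfl
    intro t ht
    simp only [Finset.mem_filter] at ht
    unfold q'
    rw [hτ t.1 ht.2]

theorem telescope (p : ℕ) : ∀ k : ℕ, k + 1 ≤ p →
    ∏ i ∈ Finset.range (k + 1), (1 - 1 / ((p : ℝ) - (i : ℕ))) = ((p : ℝ) - k - 1) / p := by
  intro k
  induction k with
  | zero =>
    intro h
    have : (1 : ℝ) ≤ p := by exact_mod_cast h
    simp
    field_simp
  | succ k ih =>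
    intro h
    rw [Finset.prod_range_succ, ih (by omega)]
    have h1 : ((k : ℝ) + 1) + 1 ≤ p := by exact_mod_cast h
    have h2 : (0 : ℝ) < p := by linarith [(Nat.cast_nonneg k : (0 : ℝ) ≤ k)]
    push_cast
    have h3 : (p : ℝ) - (k + 1) ≠ 0 := by linarith
    field_simp
    ring

/-- The hidden potential edges of phases before the last one with edge in `S`. -/
def hid (τ : Fin p → ZMod m) (S : Finset (Sym2 (Fin n))) : Finset (Pot p m) :=
  (pots φ S).filter (fun t => t.2.2.1 = τ t.1 ∧ (t.1 : ℕ) + 1 < p)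

theorem copy_le (τ : Fin p → ZMod m) (j : ZMod m) (T : Finset (Pot p m))
    (hu : ∀ t ∈ T, ∀ t' ∈ T, t.1 = t'.1 → t.2.1 = t'.2.1 → t = t') :
    ∑ k : Fin p, (1 - ∏ t ∈ T, q τ j k t) ≤
      ((p : ℝ) + 1) / 2 + p * ((T.filter (fun t => t.2.2.1 = τ t.1 ∧ (t.1 : ℕ) + 1 < p)).filter
        (fun t => t.2.1 = j)).card := by
  classical
  by_cases hh : ((T.filter (fun t => t.2.2.1 = τ t.1 ∧ (t.1 : ℕ) + 1 < p)).filter
        (fun t => t.2.1 = j)).Nonempty
  · have h1 : (1 : ℝ) ≤ (((T.filter (fun t => t.2.2.1 = τ t.1 ∧ (t.1 : ℕ) + 1 < p)).filter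
        (fun t => t.2.1 = j)).card : ℝ) := by
      exact_mod_cast Finset.card_pos.2 hh
    have h2 : ∑ k : Fin p, (1 - ∏ t ∈ T, q τ j k t) ≤ ∑ k : Fin p, (1 : ℝ) := by
      apply Finset.sum_le_sum
      intro k _
      have : 0 ≤ ∏ t ∈ T, q τ j k t := Finset.prod_nonneg fun t _ => q_nonneg τ j k t
      linarith
    simp only [Finset.sum_const, Finset.card_univ, Fintype.card_fin, nsmul_eq_mul, mul_one] at h2
    have h3 : (0 : ℝ) ≤ p := Nat.cast_nonneg p
    nlinarith
  · rw [Finset.not_nonempty_iff_eq_empty] at hh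
    rw [hh, Finset.card_empty, Nat.cast_zero, mul_zero, add_zero]
    have key : ∀ k : Fin p, ((p : ℝ) - (k : ℕ) - 1) / p ≤ ∏ t ∈ T, q τ j k t := by
      intro k
      have hk : (k : ℕ) + 1 ≤ p := k.2
      rcases Nat.lt_or_ge ((k : ℕ) + 1) p with hk' | hk'
      · -- main case
        set w : Fin p → ℝ := fun i => if i ≤ k then 1 - 1 / ((p : ℝ) - (i : ℕ)) else 1 with hw
        have hw0 : ∀ i, 0 ≤ w i := by
          intro i; simp only [hw]; split_ifs
          · exact r_nonneg i
          · exact zero_le_one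
        have hw1 : ∀ i, w i ≤ 1 := by
          intro i; simp only [hw]; split_ifs
          · exact r_le_one i
          · exact le_rfl
        have e1 : ∏ t ∈ T, q τ j k t = ∏ t ∈ T.filter (fun t => t.2.1 = j), w t.1 := by
          rw [← Finset.prod_filter_mul_prod_filter_not T (fun t => t.2.1 = j)]
          have h1 : ∏ t ∈ T.filter (fun t => ¬ t.2.1 = j), q τ j k t = 1 := by
            apply Finset.prod_eq_one
            intro t ht
            rw [Finset.mem_filter] at ht
            unfold q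
            rw [if_neg ht.2]
          rw [h1, mul_one]
          apply Finset.prod_congr rfl
          intro t ht
          rw [Finset.mem_filter] at ht
          unfold q
          rw [if_pos ht.2]
          by_cases hy : t.2.2.1 = τ t.1
          · rw [if_pos hy]
            have hnot : ¬ ((t.1 : ℕ) + 1 < p) := by
              intro hlt
              have : t ∈ ((T.filter (fun t => t.2.2.1 = τ t.1 ∧ (t.1 : ℕ) + 1 < p)).filter
                  (fun t => t.2.1 = j)) := by
                simp only [Finset.mem_filter]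
                exact ⟨⟨ht.1, hy, hlt⟩, ht.2⟩
              rw [hh] at this
              simp at this
            have hgt : k < t.1 := by
              rw [Fin.lt_def]; omega
            rw [if_neg hgt.ne']
            simp only [hw]
            rw [if_neg (not_le.2 hgt)]
          · rw [if_neg hy]
        have e2 : ∏ t ∈ T.filter (fun t => t.2.1 = j), w t.1 =
            ∏ i ∈ (T.filter (fun t => t.2.1 = j)).image (fun t => t.1), w i := by
          rw [Finset.prod_image]
          intro a ha b hb hab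
          rw [Finset.mem_coe, Finset.mem_filter] at ha hb
          exact hu a ha.1 b hb.1 hab (ha.2.trans hb.2.symm)
        have e3 : ∏ i : Fin p, w i ≤
            ∏ i ∈ (T.filter (fun t => t.2.1 = j)).image (fun t => t.1), w i :=
          prod_mono w hw0 hw1 _ _ (Finset.subset_univ _)
        have e4 : ∏ i : Fin p, w i = ((p : ℝ) - (k : ℕ) - 1) / p := by
          rw [← telescope p k hk]
          have : ∏ i : Fin p, w i =
              ∏ i : Fin p, (fun i : ℕ => if i ≤ (k : ℕ) then 1 - 1 / ((p : ℝ) - (i : ℕ)) else 1)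
                (i : ℕ) := by
            apply Finset.prod_congr rfl
            intro i _
            simp only [hw, Fin.le_def]
          rw [this, Fin.prod_univ_eq_prod_range
            (fun i : ℕ => if i ≤ (k : ℕ) then 1 - 1 / ((p : ℝ) - (i : ℕ)) else 1) p]
          rw [Finset.prod_ite, Finset.prod_const_one, mul_one]
          apply Finset.prod_congr _ (fun _ _ => rfl)
          ext i
          simp only [Finset.mem_filter, Finset.mem_range]
          omega
        rw [e1, e2, ← e4]
        exact e3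
      · have h1 : ((k : ℕ) : ℝ) + 1 = p := by
          have : (k : ℕ) + 1 = p := le_antisymm hk hk'
          exact_mod_cast this
        have h2 : ((p : ℝ) - (k : ℕ) - 1) / p = 0 := by
          rw [← h1]; ring
        rw [h2]
        exact Finset.prod_nonneg fun t _ => q_nonneg τ j k t
    calc ∑ k : Fin p, (1 - ∏ t ∈ T, q τ j k t) ≤ ∑ k : Fin p, (1 - ((p : ℝ) - (k : ℕ) - 1) / p) := by
          apply Finset.sum_le_sum
          intro k _
          linarith [key k]
      _ ≤ ((p : ℝ) + 1) / 2 := by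
          rcases Nat.eq_zero_or_pos p with h0 | h0
          · subst h0; simp
          · have hp : (0 : ℝ) < p := by exact_mod_cast h0
            have h1 : ∀ k : Fin p, (1 - ((p : ℝ) - (k : ℕ) - 1) / p) =
                (fun i : ℕ => ((i : ℝ) + 1) / p) (k : ℕ) := by
              intro k; field_simp; ring
            rw [Finset.sum_congr rfl fun k _ => h1 k,
              Fin.sum_univ_eq_sum_range (fun i : ℕ => ((i : ℝ) + 1) / p) p, ← Finset.sum_div]
            have h2 : ∀ N : ℕ, ∑ i ∈ Finset.range N, ((i : ℝ) + 1) = N * (N + 1) / 2 := by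
              intro N
              induction N with
              | zero => simp
              | succ N ih => rw [Finset.sum_range_succ, ih]; push_cast; ring
            rw [h2]
            apply le_of_eq
            field_simp

theorem F_le (hp : 0 < p) (τ : Fin p → ZMod m) (S : Finset (Sym2 (Fin n)))
    (hu : ∀ t ∈ pots φ S, ∀ t' ∈ pots φ S, t.1 = t'.1 → t.2.1 = t'.2.1 → t = t') :
    F φ τ S ≤ (m : ℝ) * ((p : ℝ) + 1) / (2 * p) + (hid φ τ S).card := by
  have hp' : (0 : ℝ) < p := by exact_mod_cast hp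
  have h1 : ∑ j : ZMod m, ∑ k : Fin p, (1 - ∏ t ∈ pots φ S, q τ j k t) ≤
      ∑ j : ZMod m, (((p : ℝ) + 1) / 2 + p * ((hid φ τ S).filter (fun t => t.2.1 = j)).card) :=
    Finset.sum_le_sum fun j _ => copy_le τ j _ hu
  have h2 : ∑ j : ZMod m, (((hid φ τ S).filter (fun t => t.2.1 = j)).card : ℝ) =
      ((hid φ τ S).card : ℝ) := by
    have := Finset.card_eq_sum_card_fiberwise (s := hid φ τ S) (t := (Finset.univ : Finset (ZMod m)))
      (f := fun t => t.2.1) (by intro x _; simp)
    rw [this]
    push_cast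
    rfl
  rw [Finset.sum_add_distrib, ← Finset.mul_sum, h2, Finset.sum_const, Finset.card_univ,
    ZMod.card, nsmul_eq_mul] at h1
  unfold F
  calc _ ≤ (1 / (p : ℝ)) * ((m : ℝ) * (((p : ℝ) + 1) / 2) + p * ((hid φ τ S).card : ℝ)) :=
        mul_le_mul_of_nonneg_left h1 (by positivity)
    _ = _ := by field_simp

/-- The hidden optimal matching. -/
def optM (τ : Fin p → ZMod m) (c : Fin p × ZMod m × ZMod m → Bool) : Finset (Sym2 (Fin n)) :=
  (Finset.univ : Finset (Fin p × ZMod m)).image
    (fun ia => edge φ (ia.1, ia.2, τ ia.1, c (ia.1, ia.2, τ ia.1)))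

theorem F_opt (hp : 0 < p) (τ : Fin p → ZMod m) (c : Fin p × ZMod m × ZMod m → Bool) :
    F φ τ (optM φ τ c) = m := by
  have hp' : (0 : ℝ) < p := by exact_mod_cast hp
  unfold F
  have h1 : ∀ (j : ZMod m) (k : Fin p), ∏ t ∈ pots φ (optM φ τ c), q τ j k t = 0 := by
    intro j k
    apply Finset.prod_eq_zero (i := (k, j, τ k, c (k, j, τ k)))
    · simp only [pots, optM, Finset.mem_filter, Finset.mem_univ, true_and, Finset.mem_image]
      exact ⟨(k, j), rfl⟩
    · simp [q]
  simp only [h1]
  simp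
  field_simp


/-! ### Graph and stream -/

/-- The edges of the hard instance: for each phase, left vertex and shift exactly one of the two
copies of the right vertex is used. -/
def ed (c : Fin p × ZMod m × ZMod m → Bool) (k : Fin p × ZMod m × ZMod m) : Sym2 (Fin n) :=
  edge φ (k.1, k.2.1, k.2.2, c k)

theorem ed_injective (c : Fin p × ZMod m × ZMod m → Bool) : Function.Injective (ed φ c) := by
  intro k k' h
  have := edge_injective φ h
  simp only [Prod.mk.injEq] at this
  obtain ⟨h1, h2, h3, _⟩ := this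
  exact Prod.ext h1 (Prod.ext h2 h3)

/-- The graph of the hard instance. -/
def gr (c : Fin p × ZMod m × ZMod m → Bool) : SimpleGraph (Fin n) :=
  SimpleGraph.fromEdgeSet (Set.range (ed φ c))

theorem mem_gr (c : Fin p × ZMod m × ZMod m → Bool) (e : Sym2 (Fin n)) :
    e ∈ (gr φ c).edgeSet ↔ ∃ k, ed φ c k = e := by
  unfold gr
  rw [SimpleGraph.edgeSet_fromEdgeSet]
  simp only [Set.mem_sdiff, Set.mem_range]
  constructor
  · exact fun h => h.1
  · rintro ⟨k, rfl⟩
    exact ⟨⟨k, rfl⟩, edge_not_diag φ _⟩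

/-- The part of the stream consisting of the phases in the list `L`. -/
noncomputable def part (c : Fin p × ZMod m × ZMod m → Bool) (L : List (Fin p)) :
    List (Sym2 (Fin n)) :=
  (L.product (Finset.univ : Finset (ZMod m × ZMod m)).toList).map (ed φ c)

theorem mem_part (c : Fin p × ZMod m × ZMod m → Bool) (L : List (Fin p)) (e : Sym2 (Fin n)) :
    e ∈ part φ c L ↔ ∃ k, k.1 ∈ L ∧ ed φ c k = e := by
  unfold part
  rw [List.mem_map]
  constructor
  · rintro ⟨k, hk, rfl⟩
    exact ⟨k, (List.mem_product.1 hk).1, rfl⟩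
  · rintro ⟨k, hk, rfl⟩
    exact ⟨k, List.mem_product.2 ⟨hk, by simp⟩, rfl⟩

theorem part_nodup (c : Fin p × ZMod m × ZMod m → Bool) (L : List (Fin p)) (hL : L.Nodup) :
    (part φ c L).Nodup :=
  (List.Nodup.product hL (Finset.nodup_toList _)).map (ed_injective φ c)

theorem part_append (c : Fin p × ZMod m × ZMod m → Bool) (L L' : List (Fin p)) :
    part φ c (L ++ L') = part φ c L ++ part φ c L' := by
  unfold part
  simp [List.product, List.flatMap_append]

/-- The phases up to `i`. -/
def upTo (i : Fin p) : List (Fin p) := (List.finRange p).take ((i : ℕ) + 1)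

/-- The phases after `i`. -/
def after (i : Fin p) : List (Fin p) := (List.finRange p).drop ((i : ℕ) + 1)

theorem mem_upTo (i j : Fin p) : j ∈ upTo i ↔ j ≤ i := by
  unfold upTo
  rw [List.mem_take_iff_getElem]
  constructor
  · rintro ⟨k, hk, rfl⟩
    rw [List.getElem_finRange, Fin.le_def]
    simp at hk ⊢
    omega
  · intro h
    rw [Fin.le_def] at h
    refine ⟨(j : ℕ), ?_, ?_⟩
    · simp; omega
    · simp

theorem mem_after (i j : Fin p) (h : j ∈ after i) : i < j := by
  unfold after at h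
  rw [List.mem_drop_iff_getElem] at h
  obtain ⟨k, hk, rfl⟩ := h
  rw [List.getElem_finRange, Fin.lt_def]
  simp
  omega

theorem optM_matching (τ : Fin p → ZMod m) (c : Fin p × ZMod m × ZMod m → Bool) :
    IsMatching (gr φ c) (optM φ τ c) := by
  constructor
  · intro e he
    rw [Finset.mem_coe] at he
    simp only [optM, Finset.mem_image, Finset.mem_univ, true_and] at he
    obtain ⟨ia, rfl⟩ := he
    rw [mem_gr]
    exact ⟨(ia.1, ia.2, τ ia.1), rfl⟩
  · intro e he e' he' hne v hv
    simp only [optM, Finset.mem_image, Finset.mem_univ, true_and] at he he'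
    obtain ⟨⟨i, a⟩, rfl⟩ := he
    obtain ⟨⟨i', a'⟩, rfl⟩ := he'
    apply hne
    simp only [edge, Sym2.mem_iff] at hv
    obtain ⟨h1, h2⟩ := hv
    rcases h1 with rfl | rfl <;> rcases h2 with h2 | h2 <;>
      simp only [φ.injective.eq_iff, Prod.mk.injEq, Sum.inl.injEq, Sum.inr.injEq, reduceCtorEq,
        and_false] at h2
    · obtain ⟨rfl, rfl⟩ := h2; rfl
    · obtain ⟨rfl, h3, _⟩ := h2
      have : a = a' := by simpa using h3
      subst this; rfl

/-! ### The algorithm on the hard instance -/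

section Alg

variable {s : ℕ} (A : DetAlg n s)

/-- Memory content after the phases up to `i`. -/
noncomputable def st (c : Fin p × ZMod m × ZMod m → Bool) (i : Fin p) (τ : Fin p → ZMod m) :
    Fin s → Bool :=
  A.run (F φ τ) 0 ∅ A.init (part φ c (upTo i))

theorem length_part (c c' : Fin p × ZMod m × ZMod m → Bool) (L : List (Fin p)) :
    (part φ c L).length = (part φ c' L).length := by
  unfold part; simp

theorem mem_pots (S : Finset (Sym2 (Fin n))) (t : Pot p m) : t ∈ pots φ S ↔ edge φ t ∈ S := by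
  simp [pots]

theorem st_congr (c : Fin p × ZMod m × ZMod m → Bool) (i : Fin p) (τ τ' : Fin p → ZMod m)
    (h : ∀ i', i' < i → τ i' = τ' i') : st φ A c i τ = st φ A c i τ' := by
  unfold st
  apply run_congr
  intro S hS
  rw [Finset.empty_union] at hS
  have key : ∀ t ∈ pots φ S, t.1 ≤ i ∧ c (t.1, t.2.1, t.2.2.1) = t.2.2.2 := by
    intro t ht
    rw [mem_pots] at ht
    have h1 := hS ht
    rw [List.mem_toFinset, mem_part] at h1
    obtain ⟨k, hk, hk2⟩ := h1
    have := edge_injective φ hk2
    rw [mem_upTo] at hk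
    rw [← this]
    exact ⟨hk, rfl⟩
  apply F_congr φ τ τ' i h S (fun t ht => (key t ht).1)
  intro t ht t' ht' h1 h2 h3 h4
  have e1 := (key t ht).2
  have e2 := (key t' ht').2
  have h5 : t.1 = t'.1 := h1.trans h2.symm
  rw [h5, h3, h4] at e1
  exact Prod.ext h5 (Prod.ext h3 (Prod.ext h4 (e1.symm.trans e2)))

theorem st_held (c : Fin p × ZMod m × ZMod m → Bool) (i : Fin p) (τ : Fin p → ZMod m) :
    A.held (part φ c (upTo i)).length (st φ A c i τ) ⊆ (part φ c (upTo i)).toFinset := by
  have h := held_run A (F φ τ) (part φ c (upTo i)) 0 ∅ A.init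
  rw [A.held_init, Finset.empty_union, zero_add] at h
  exact h

theorem out_held (c : Fin p × ZMod m × ZMod m → Bool) (i : Fin p) (τ : Fin p → ZMod m)
    (t : Pot p m) (ht : t.1 = i)
    (he : edge φ t ∈ A.result (F φ τ) (part φ c (List.finRange p))) :
    edge φ t ∈ A.held (part φ c (upTo i)).length (st φ A c i τ) := by
  have h1 := A.output_held _ _ _ he
  have h2 : List.finRange p = upTo i ++ after i := (List.take_append_drop _ _).symm
  rw [h2, part_append, run_append, List.length_append] at h1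
  have h3 := held_run A (F φ τ) (part φ c (after i)) (0 + (part φ c (upTo i)).length)
    (∅ ∪ (part φ c (upTo i)).toFinset) (st φ A c i τ)
  rw [zero_add] at h1 h3
  have h4 := h3 h1
  rw [Finset.mem_union] at h4
  rcases h4 with h4 | h4
  · exact h4
  · exfalso
    rw [List.mem_toFinset, mem_part] at h4
    obtain ⟨k, hk, hk2⟩ := h4
    have h5 := edge_injective φ hk2
    have h6 := mem_after i k.1 hk
    rw [← h5] at ht
    simp only at ht
    rw [ht] at h6
    exact lt_irrefl _ h6

open Classical in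
/-- The number of edges of phase `i` and shift `y` held in memory after phase `i`. -/
noncomputable def g (c : Fin p × ZMod m × ZMod m → Bool) (i : Fin p) (τ : Fin p → ZMod m)
    (y : ZMod m) : ℝ :=
  ∑ a : ZMod m, if edge φ (i, a, y, c (i, a, y)) ∈
    A.held (part φ c (upTo i)).length (st φ A c i τ) then 1 else 0

theorem g_update (c : Fin p × ZMod m × ZMod m → Bool) (i : Fin p) (τ : Fin p → ZMod m)
    (z y : ZMod m) : g φ A c i (Function.update τ i z) y = g φ A c i τ y := by
  unfold g
  rw [st_congr φ A c i (Function.update τ i z) τ]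
  intro i' hi'
  rw [Function.update_of_ne hi'.ne]

theorem hid_le (c : Fin p × ZMod m × ZMod m → Bool) (τ : Fin p → ZMod m)
    (hM : IsMatching (gr φ c) (A.result (F φ τ) (part φ c (List.finRange p)))) :
    ((hid φ τ (A.result (F φ τ) (part φ c (List.finRange p)))).card : ℝ) ≤
      ∑ i : Fin p, g φ A c i τ (τ i) := by
  classical
  set M := A.result (F φ τ) (part φ c (List.finRange p)) with hMdef
  have hc : ∀ t ∈ hid φ τ M, t = (t.1, t.2.1, τ t.1, c (t.1, t.2.1, τ t.1)) := by
    intro t ht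
    simp only [hid, Finset.mem_filter, mem_pots] at ht
    have h1 := hM.1 ht.1
    rw [mem_gr] at h1
    obtain ⟨k, hk⟩ := h1
    have h2 := edge_injective φ hk
    have h3 := ht.2.1
    rw [← h2] at h3 ⊢
    simp only at h3 ⊢
    rw [← h3]
  have h1 : (hid φ τ M).card ≤ (Finset.univ.filter (fun ia : Fin p × ZMod m =>
      edge φ (ia.1, ia.2, τ ia.1, c (ia.1, ia.2, τ ia.1)) ∈
        A.held (part φ c (upTo ia.1)).length (st φ A c ia.1 τ))).card := by
    apply Finset.card_le_card_of_injOn (fun t => (t.1, t.2.1))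
    · intro t ht
      have h2 := hc t ht
      rw [Finset.mem_coe, Finset.mem_filter]
      refine ⟨Finset.mem_univ _, ?_⟩
      simp only
      rw [← h2]
      have h3 := ht
      rw [Finset.mem_coe] at h3
      simp only [hid, Finset.mem_filter, mem_pots] at h3
      exact out_held φ A c t.1 τ t rfl h3.1
    · intro t ht t' ht' h
      simp only [Prod.mk.injEq] at h
      rw [hc t ht, hc t' ht', h.1, h.2]
  have h2 : ((Finset.univ.filter (fun ia : Fin p × ZMod m =>
      edge φ (ia.1, ia.2, τ ia.1, c (ia.1, ia.2, τ ia.1)) ∈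
        A.held (part φ c (upTo ia.1)).length (st φ A c ia.1 τ))).card : ℝ) =
      ∑ i : Fin p, g φ A c i τ (τ i) := by
    rw [Finset.card_filter]
    push_cast
    rw [Fintype.sum_prod_type]
    rfl
  rw [← h2]
  exact_mod_cast h1

theorem sum_g_le (c₀ : Fin p × ZMod m × ZMod m → Bool) (i : Fin p) (τ : Fin p → ZMod m) :
    ∑ c : Fin p × ZMod m × ZMod m → Bool, ∑ y : ZMod m, g φ A c i τ y ≤
      ((s : ℝ) + 1) * Fintype.card (Fin p × ZMod m × ZMod m → Bool) := by
  classical
  set L := (part φ c₀ (upTo i)).length with hL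
  set D : (Fin s → Bool) → Finset ((Fin p × ZMod m × ZMod m) × Bool) := fun σ =>
    Finset.univ.filter (fun kx => kx.1.1 = i ∧
      edge φ (kx.1.1, kx.1.2.1, kx.1.2.2, kx.2) ∈ A.held L σ) with hD
  have h1 := sum_card_le s (fun c => st φ A c i τ) D (by
    intro c kx hkx
    simp only [hD, Finset.mem_filter, Finset.mem_univ, true_and] at hkx
    have h2 := st_held φ A c i τ
    rw [← length_part φ c₀ c (upTo i), ← hL] at h2
    have h3 := h2 hkx.2
    rw [List.mem_toFinset, mem_part] at h3
    obtain ⟨k, hk, hk2⟩ := h3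
    have h4 := edge_injective φ hk2
    simp only [Prod.mk.injEq] at h4
    obtain ⟨e1, e2, e3, e4⟩ := h4
    rw [← e4]
    congr 1
    exact (Prod.ext e1 (Prod.ext e2 e3)).symm)
  have hcard : (Fintype.card (Fin p × ZMod m × ZMod m → Bool) : ℝ) =
      2 ^ Fintype.card (Fin p × ZMod m × ZMod m) := by
    rw [Fintype.card_fun, Fintype.card_bool]
    push_cast
    rfl
  rw [hcard]
  refine le_trans (Finset.sum_le_sum fun c _ => ?_) h1
  have h2 : ∑ y : ZMod m, g φ A c i τ y = ((Finset.univ.filter (fun ya : ZMod m × ZMod m =>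
      edge φ (i, ya.2, ya.1, c (i, ya.2, ya.1)) ∈
        A.held (part φ c (upTo i)).length (st φ A c i τ))).card : ℝ) := by
    rw [Finset.card_filter]
    push_cast
    rw [Fintype.sum_prod_type]
    rfl
  rw [h2]
  have h3 : (Finset.univ.filter (fun ya : ZMod m × ZMod m =>
      edge φ (i, ya.2, ya.1, c (i, ya.2, ya.1)) ∈
        A.held (part φ c (upTo i)).length (st φ A c i τ))).card ≤ (D (st φ A c i τ)).card := by
    apply Finset.card_le_card_of_injOn (fun ya => ((i, ya.2, ya.1), c (i, ya.2, ya.1)))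
    · intro ya hya
      rw [Finset.mem_coe, Finset.mem_filter] at hya
      simp only [hD, Finset.coe_filter, Finset.mem_univ, true_and, Set.mem_setOf_eq]
      rw [hL, length_part φ c₀ c (upTo i)]
      exact hya.2
    · intro ya _ ya' _ h
      simp only [Prod.mk.injEq, true_and] at h
      exact Prod.ext h.1.2 h.1.1
  exact_mod_cast h3

open Classical in
theorem count_success (hp : 0 < p) (α η : ℝ) (hα : 1 ≤ α) (hη : 0 < η)
    (hαp : α * (((p : ℝ) + 1) / (2 * p)) ≤ 1 - η) :
    ((Finset.univ.filter (fun x : (Fin p × ZMod m × ZMod m → Bool) × (Fin p → ZMod m) =>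
      A.Succeeds α (gr φ x.1) (F φ x.2) (part φ x.1 (List.finRange p)))).card : ℝ) *
        (η * m / α) ≤
      (p : ℝ) * ((s : ℝ) + 1) / m *
        Fintype.card ((Fin p × ZMod m × ZMod m → Bool) × (Fin p → ZMod m)) := by
  have hm : (0 : ℝ) < m := by exact_mod_cast Nat.pos_of_ne_zero (NeZero.ne m)
  have hp' : (0 : ℝ) < p := by exact_mod_cast hp
  have hg0 : ∀ c i τ y, 0 ≤ g φ A c i τ y := by
    intro c i τ y
    unfold g
    apply Finset.sum_nonneg
    intro a _
    split_ifs
    · exact zero_le_one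
    · exact le_rfl
  have h1 : ∀ x ∈ Finset.univ.filter
      (fun x : (Fin p × ZMod m × ZMod m → Bool) × (Fin p → ZMod m) =>
      A.Succeeds α (gr φ x.1) (F φ x.2) (part φ x.1 (List.finRange p))),
      η * m / α ≤ ∑ i : Fin p, g φ A x.1 i x.2 (x.2 i) := by
    rintro ⟨c, τ⟩ hx
    rw [Finset.mem_filter] at hx
    obtain ⟨-, hM, hopt⟩ := hx
    simp only at hM hopt ⊢
    refine le_trans ?_ (hid_le φ A c τ hM)
    have h2 := hopt _ (optM_matching φ τ c)
    rw [F_opt φ hp] at h2
    set M := A.result (F φ τ) (part φ c (List.finRange p)) with hMdef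
    have h3 := F_le φ hp τ M (by
      intro t ht t' ht' h4 h5
      by_contra hne
      rw [mem_pots] at ht ht'
      refine hM.2 _ ht _ ht' (fun h6 => hne (edge_injective φ h6)) (φ (t.1, Sum.inl t.2.1)) ⟨?_, ?_⟩
      · unfold edge; exact Sym2.mem_mk_left _ _
      · unfold edge; rw [h4, h5]; exact Sym2.mem_mk_left _ _)
    have h4 : (m : ℝ) ≤ α * ((m : ℝ) * ((p : ℝ) + 1) / (2 * p) + (hid φ τ M).card) := by
      have h5 := le_trans h2 h3
      have h6 : α * ((1 / α) * (m : ℝ)) = m := by field_simp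
      calc (m : ℝ) = α * ((1 / α) * (m : ℝ)) := h6.symm
        _ ≤ _ := mul_le_mul_of_nonneg_left h5 (by linarith)
    have h5 : α * ((m : ℝ) * ((p : ℝ) + 1) / (2 * p)) = m * (α * (((p : ℝ) + 1) / (2 * p))) := by
      ring
    have h6 : (m : ℝ) * (α * (((p : ℝ) + 1) / (2 * p))) ≤ m * (1 - η) :=
      mul_le_mul_of_nonneg_left hαp hm.le
    rw [div_le_iff₀ (by linarith)]
    rw [mul_add, h5] at h4
    nlinarith
  have h2 : ((Finset.univ.filter (fun x : (Fin p × ZMod m × ZMod m → Bool) × (Fin p → ZMod m) =>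
      A.Succeeds α (gr φ x.1) (F φ x.2) (part φ x.1 (List.finRange p)))).card : ℝ) *
        (η * m / α) ≤ ∑ x : (Fin p × ZMod m × ZMod m → Bool) × (Fin p → ZMod m),
          ∑ i : Fin p, g φ A x.1 i x.2 (x.2 i) := by
    rw [← nsmul_eq_mul]
    refine le_trans (Finset.card_nsmul_le_sum _ _ _ h1) ?_
    apply Finset.sum_le_sum_of_subset_of_nonneg (Finset.subset_univ _)
    intro x _ _
    exact Finset.sum_nonneg fun i _ => hg0 _ _ _ _
  refine le_trans h2 ?_
  rw [Finset.sum_comm]
  have h3 : ∀ i : Fin p, ∑ x : (Fin p × ZMod m × ZMod m → Bool) × (Fin p → ZMod m),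
      g φ A x.1 i x.2 (x.2 i) ≤ ((s : ℝ) + 1) / m *
        Fintype.card ((Fin p × ZMod m × ZMod m → Bool) × (Fin p → ZMod m)) := by
    intro i
    rw [Fintype.sum_prod_type]
    have h4 : ∀ c : Fin p × ZMod m × ZMod m → Bool, ∑ τ : Fin p → ZMod m, g φ A c i τ (τ i) =
        (1 / (m : ℝ)) * ∑ τ : Fin p → ZMod m, ∑ y, g φ A c i τ y := by
      intro c
      rw [sum_update i (g φ A c i) (fun τ z y => g_update φ A c i τ z y), ZMod.card]
      field_simp
    simp only [h4]
    rw [← Finset.mul_sum, Finset.sum_comm]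
    have h5 : ∑ τ : Fin p → ZMod m, ∑ c : Fin p × ZMod m × ZMod m → Bool,
        ∑ y, g φ A c i τ y ≤ ∑ τ : Fin p → ZMod m,
          ((s : ℝ) + 1) * Fintype.card (Fin p × ZMod m × ZMod m → Bool) :=
      Finset.sum_le_sum fun τ _ => sum_g_le φ A (fun _ => false) i τ
    rw [Finset.sum_const, Finset.card_univ, nsmul_eq_mul] at h5
    rw [Fintype.card_prod]
    push_cast
    calc _ ≤ (1 / (m : ℝ)) * ((Fintype.card (Fin p → ZMod m) : ℝ) *
          (((s : ℝ) + 1) * Fintype.card (Fin p × ZMod m × ZMod m → Bool))) :=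
          mul_le_mul_of_nonneg_left h5 (by positivity)
      _ = _ := by ring
  calc _ ≤ ∑ i : Fin p, ((s : ℝ) + 1) / m *
        Fintype.card ((Fin p × ZMod m × ZMod m → Bool) × (Fin p → ZMod m)) :=
        Finset.sum_le_sum fun i _ => h3 i
    _ = _ := by
        rw [Finset.sum_const, Finset.card_univ, Fintype.card_fin, nsmul_eq_mul]
        ring

end Alg

end

/-- If each of the events has probability at least `2/3` and every point lies in at most `κ` of
them, then `(2/3) * (number of events) ≤ κ`. -/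
theorem average {Ω X : Type} [Fintype X] [MeasurableSpace Ω] (μ : Measure Ω)
    [IsProbabilityMeasure μ] (B : X → Set Ω) (hB : ∀ x, MeasurableSet (B x))
    (hμ : ∀ x, 2 / 3 ≤ μ (B x)) (κ : ℝ) (hκ : ∀ (ω : Ω) (Y : Finset X), (∀ x ∈ Y, ω ∈ B x) →
      (Y.card : ℝ) ≤ κ) : (2 / 3 : ℝ) * Fintype.card X ≤ κ := by
  classical
  have hκ0 : 0 ≤ κ := by
    obtain ⟨ω⟩ : Nonempty Ω := by
      by_contra h
      rw [not_nonempty_iff] at h
      have h1 : μ Set.univ = 1 := measure_univ
      rw [Set.univ_eq_empty_iff.2 h, measure_empty] at h1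
      exact zero_ne_one h1
    have := hκ ω ∅ (by simp)
    simpa using this
  have h1 : ∑ x, μ (B x) = ∫⁻ ω, ∑ x, (B x).indicator 1 ω ∂μ := by
    rw [lintegral_finset_sum _ (fun x _ => measurable_one.indicator (hB x))]
    apply Finset.sum_congr rfl
    intro x _
    rw [lintegral_indicator_one (hB x)]
  have h2 : ∫⁻ ω, ∑ x, (B x).indicator (1 : Ω → ENNReal) ω ∂μ ≤ ∫⁻ _ω, ENNReal.ofReal κ ∂μ := by
    apply lintegral_mono
    intro ω
    have h3 : ∑ x, (B x).indicator (1 : Ω → ENNReal) ω =
        ((Finset.univ.filter (fun x => ω ∈ B x)).card : ENNReal) := by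
      simp only [Set.indicator_apply, Pi.one_apply]
      rw [Finset.sum_boole]
    simp only
    rw [h3]
    have h4 := hκ ω (Finset.univ.filter (fun x => ω ∈ B x)) (by
      intro x hx; rw [Finset.mem_filter] at hx; exact hx.2)
    rw [← ENNReal.ofReal_natCast]
    exact ENNReal.ofReal_le_ofReal h4
  rw [lintegral_const, measure_univ, mul_one] at h2
  rw [← h1] at h2
  have h5 : ∑ _x : X, (2 / 3 : ENNReal) ≤ ∑ x, μ (B x) := Finset.sum_le_sum fun x _ => hμ x
  have h6 := le_trans h5 h2
  rw [Finset.sum_const, Finset.card_univ, nsmul_eq_mul] at h6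
  have h7 : (Fintype.card X : ENNReal) * (2 / 3) =
      ENNReal.ofReal ((2 / 3 : ℝ) * Fintype.card X) := by
    rw [ENNReal.ofReal_mul (by norm_num), ENNReal.ofReal_natCast, mul_comm]
    congr 1
    rw [ENNReal.ofReal_div_of_pos (by norm_num)]
    norm_num
  rw [h7] at h6
  exact (ENNReal.ofReal_le_ofReal_iff hκ0).1 h6

/-- The parameters of an instance: the right copies used and the hidden shifts. -/
abbrev Param (p m : ℕ) := (Fin p × ZMod m × ZMod m → Bool) × (Fin p → ZMod m)

/-- The quantitative bound for the parameters of the instance. -/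
theorem main_bound {n p m s : ℕ} [NeZero m] (φ : Vtx p m ↪ Fin n) (hp : 0 < p) (α η : ℝ)
    (hα : 1 ≤ α) (hη : 0 < η) (hαp : α * (((p : ℝ) + 1) / (2 * p)) ≤ 1 - η)
    (A : RandAlg n s) (hA : A.Approximates α) :
    2 / 3 * η * (m : ℝ) ^ 2 ≤ α * p * ((s : ℝ) + 1) := by
  classical
  letI := A.ms
  haveI := A.prob
  have hm : (0 : ℝ) < m := by exact_mod_cast Nat.pos_of_ne_zero (NeZero.ne m)
  have hα0 : 0 < α := by linarith
  have h0 : ∀ x : Param p m,
      ∃ B : Set A.Seed, MeasurableSet B ∧ 2 / 3 ≤ A.μ B ∧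
        ∀ ω ∈ B, (A.alg ω).Succeeds α (gr φ x.1) (F φ x.2) (part φ x.1 (List.finRange p)) := by
    intro x
    refine hA (gr φ x.1) (F φ x.2) ⟨F_empty φ _, fun S T h _ => F_mono φ _ S T h,
      fun S T _ _ => F_submod φ _ S T⟩ _ (part_nodup φ _ _ (List.nodup_finRange p)) ?_
    intro e
    rw [mem_gr, mem_part]
    constructor
    · rintro ⟨k, _, hk⟩; exact ⟨k, hk⟩
    · rintro ⟨k, hk⟩; exact ⟨k, List.mem_finRange _, hk⟩
  choose B hB1 hB2 hB3 using h0
  have hcX : (0 : ℝ) < Fintype.card (Param p m) := by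
    have : 0 < Fintype.card (Param p m) := Fintype.card_pos
    exact_mod_cast this
  have h1 := average A.μ B hB1 hB2
    ((p : ℝ) * ((s : ℝ) + 1) / m * Fintype.card (Param p m) / (η * m / α)) (by
      intro ω Y hY
      rw [le_div_iff₀ (by positivity)]
      refine le_trans ?_ (count_success φ (A.alg ω) hp α η hα hη hαp)
      apply mul_le_mul_of_nonneg_right _ (by positivity)
      have : Y ⊆ (Finset.univ.filter
          (fun x : Param p m => (A.alg ω).Succeeds α (gr φ x.1) (F φ x.2) (part φ x.1 (List.finRange p)))) := by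
        intro x hx
        rw [Finset.mem_filter]
        exact ⟨Finset.mem_univ _, hB3 x ω (hY x hx)⟩
      exact_mod_cast Finset.card_le_card this)
  rw [le_div_iff₀ (by positivity)] at h1
  have h2 : 2 / 3 * (Fintype.card (Param p m) : ℝ) * (η * m / α) =
      (2 / 3 * η * (m : ℝ) ^ 2) * ((Fintype.card (Param p m) : ℝ) / (α * m)) := by
    field_simp
  have h3 : (p : ℝ) * ((s : ℝ) + 1) / m * (Fintype.card (Param p m) : ℝ) =
      (α * p * ((s : ℝ) + 1)) * ((Fintype.card (Param p m) : ℝ) / (α * m)) := by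
    field_simp
  rw [h2, h3] at h1
  exact le_of_mul_le_mul_right h1 (by positivity)

theorem quantitative (α : ℝ) (h1 : 1 ≤ α) (h2 : α < 2) :
    ∃ δ : ℝ, 0 < δ ∧ ∃ N : ℕ, ∀ n : ℕ, N ≤ n → ∀ (s : ℕ) (A : RandAlg n s),
      A.Approximates α → δ * (n : ℝ) ^ 2 ≤ s := by
  -- choose the number of phases
  obtain ⟨p, hp⟩ := exists_nat_gt (2 * α / (2 - α))
  have hα2 : 0 < 2 - α := by linarith
  have hp0' : (0 : ℝ) < p := lt_trans (by positivity) hp
  have hp0 : 0 < p := by exact_mod_cast hp0'
  rw [div_lt_iff₀ hα2] at hp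
  set η : ℝ := (2 - α) / 4 with hη
  have hη0 : 0 < η := by rw [hη]; linarith
  have hαp : α * (((p : ℝ) + 1) / (2 * p)) ≤ 1 - η := by
    rw [hη, mul_div_assoc', div_le_iff₀ (by positivity)]
    nlinarith
  set δ : ℝ := η / (108 * (p : ℝ) ^ 3 * α) with hδ
  have hδ0 : 0 < δ := by rw [hδ]; positivity
  obtain ⟨N₀, hN₀⟩ := exists_nat_gt (1 / δ)
  refine ⟨δ, hδ0, max (6 * p) (N₀ + 1), ?_⟩
  intro n hn s A hA
  have hn1 : 6 * p ≤ n := le_trans (le_max_left _ _) hn
  have hn2 : N₀ + 1 ≤ n := le_trans (le_max_right _ _) hn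
  set m : ℕ := n / (3 * p) with hm
  have hm1 : 3 * p * m ≤ n := Nat.mul_div_le n (3 * p)
  have hm2 : n < 3 * p * (m + 1) := by
    have := Nat.lt_mul_div_succ n (show 0 < 3 * p by omega)
    simpa [hm] using this
  have hm0 : 0 < m := by
    rw [hm]; apply Nat.div_pos <;> omega
  have : NeZero m := ⟨hm0.ne'⟩
  have hcard : Fintype.card (Vtx p m) ≤ Fintype.card (Fin n) := by
    simp only [Fintype.card_prod, Fintype.card_fin, Fintype.card_sum, ZMod.card, Fintype.card_bool]
    nlinarith
  obtain ⟨φ⟩ := Function.Embedding.nonempty_of_card_le hcard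
  have key := main_bound φ hp0 α η h1 hη0 hαp A hA
  have hmn : (n : ℝ) ≤ 6 * p * m := by
    have h3 : n ≤ 6 * p * m := by
      have h4 : 1 ≤ m := hm0
      nlinarith [Nat.mul_le_mul_left (3 * p) h4]
    exact_mod_cast h3
  have hnn : (1 : ℝ) ≤ δ * (n : ℝ) ^ 2 := by
    have h3 : (1 : ℝ) / δ < n := lt_of_lt_of_le hN₀ (by exact_mod_cast (by omega : N₀ ≤ n))
    have h4 : (1 : ℝ) ≤ n := by exact_mod_cast (by omega : 1 ≤ n)
    rw [div_lt_iff₀ hδ0] at h3
    nlinarith [mul_le_mul_of_nonneg_left h4 (by positivity : (0 : ℝ) ≤ n * δ)]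
  have h5 : (n : ℝ) ^ 2 ≤ 36 * (p : ℝ) ^ 2 * (m : ℝ) ^ 2 := by
    have h6 : (0 : ℝ) ≤ n := Nat.cast_nonneg n
    calc (n : ℝ) ^ 2 ≤ (6 * p * m) ^ 2 := by
          apply pow_le_pow_left₀ h6 hmn
      _ = _ := by ring
  have h6 : 2 * δ * (n : ℝ) ^ 2 ≤ (s : ℝ) + 1 := by
    have h7 : 2 * δ * (n : ℝ) ^ 2 ≤ 2 * δ * (36 * (p : ℝ) ^ 2 * (m : ℝ) ^ 2) :=
      mul_le_mul_of_nonneg_left h5 (by positivity)
    have h8 : 2 * δ * (36 * (p : ℝ) ^ 2 * (m : ℝ) ^ 2) = (2 / 3 * η * (m : ℝ) ^ 2) / (α * p) := by
      rw [hδ]; field_simp; ring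
    rw [h8] at h7
    refine le_trans h7 ?_
    rw [div_le_iff₀ (by positivity)]
    linarith
  linarith

/-! ### Sanity check of the model: storing the whole graph takes `n ^ 2` bits and is exact -/

section Store

variable {n : ℕ}

/-- The pair of vertices coded by the bit number `b`. -/
def pr (b : Fin (n * n)) : Edge n := s((finProdFinEquiv.symm b).1, (finProdFinEquiv.symm b).2)

theorem pr_surj (e : Edge n) : ∃ b, pr b = e := by
  induction e using Sym2.ind with
  | _ u v => exact ⟨finProdFinEquiv (u, v), by simp [pr]⟩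

/-- The edges stored in a memory content. -/
def stored (σ : Fin (n * n) → Bool) : Finset (Edge n) :=
  (Finset.univ.filter (fun b => σ b = true)).image pr

/-- Sets of edges in which no two edges share a vertex. -/
def Disj (M : Finset (Edge n)) : Prop :=
  ∀ e ∈ M, ∀ e' ∈ M, e ≠ e' → ∀ v : Fin n, ¬ (v ∈ e ∧ v ∈ e')

open Classical in
/-- A best matching among the stored edges. -/
noncomputable def best (H : Finset (Edge n)) (O : Finset (Edge n) → Option ℝ) : Finset (Edge n) :=
  if h : ∃ M ⊆ H, Disj M ∧ ∀ M' ⊆ H, Disj M' → (O M').getD 0 ≤ (O M).getD 0 then h.choose else ∅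

open Classical in
theorem best_spec (H : Finset (Edge n)) (O : Finset (Edge n) → Option ℝ) :
    best H O ⊆ H ∧ Disj (best H O) ∧
      ∀ M' ⊆ H, Disj M' → (O M').getD 0 ≤ (O (best H O)).getD 0 := by
  have h : ∃ M ⊆ H, Disj M ∧ ∀ M' ⊆ H, Disj M' → (O M').getD 0 ≤ (O M).getD 0 := by
    obtain ⟨M, hM, hmax⟩ := (H.powerset.filter Disj).exists_max_image (fun M => (O M).getD 0)
      ⟨∅, by simp [Disj]⟩
    rw [Finset.mem_filter, Finset.mem_powerset] at hM
    exact ⟨M, hM.1, hM.2, fun M' h1 h2 => hmax M' (by simp [h1, h2])⟩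
  unfold best
  rw [dif_pos h]
  exact h.choose_spec

/-- The algorithm that stores the whole graph. -/
noncomputable def storeAlg (n : ℕ) : DetAlg n (n * n) where
  init := fun _ => false
  step := fun _ σ e _ b => σ b || decide (pr b = e)
  held := fun _ σ => stored σ
  held_init := by simp [stored]
  held_step := by
    intro t σ e O x hx
    simp only [stored, Finset.mem_image, Finset.mem_filter, Finset.mem_univ, true_and,
      Bool.or_eq_true, decide_eq_true_eq] at hx
    obtain ⟨b, h1 | h1, rfl⟩ := hx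
    · exact Finset.mem_insert_of_mem (by
        simp only [stored, Finset.mem_image, Finset.mem_filter, Finset.mem_univ, true_and]
        exact ⟨b, h1, rfl⟩)
    · rw [h1]; exact Finset.mem_insert_self _ _
  output := fun _ σ O => best (stored σ) O
  output_held := fun _ σ O => (best_spec (stored σ) O).1

theorem storeAlg_run (f : Finset (Edge n) → ℝ) (l : List (Edge n)) :
    ∀ (t : ℕ) (arr : Finset (Edge n)) (σ : Fin (n * n) → Bool),
      stored ((storeAlg n).run f t arr σ l) = stored σ ∪ l.toFinset := by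
  induction l with
  | nil => intro t arr σ; simp [DetAlg.run]
  | cons e l ih =>
    intro t arr σ
    simp only [DetAlg.run, List.toFinset_cons]
    rw [ih]
    ext x
    have hx : x ∈ stored ((storeAlg n).step t σ e (oracle f (insert e arr))) ↔
        x ∈ stored σ ∨ x = e := by
      simp only [stored, storeAlg, Finset.mem_image, Finset.mem_filter, Finset.mem_univ, true_and,
        Bool.or_eq_true, decide_eq_true_eq]
      constructor
      · rintro ⟨b, h1 | h1, rfl⟩
        · exact Or.inl ⟨b, h1, rfl⟩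
        · exact Or.inr h1
      · rintro (⟨b, h1, rfl⟩ | rfl)
        · exact ⟨b, Or.inl h1, rfl⟩
        · obtain ⟨b, hb⟩ := pr_surj x
          exact ⟨b, Or.inr hb, hb⟩
    rw [Finset.mem_union, hx, Finset.mem_union, Finset.mem_insert, or_assoc]

/-- The model is not vacuous: with `n ^ 2` bits maximum submodular matching is solved exactly. -/
theorem store_everything (n : ℕ) : ∃ A : RandAlg n (n * n), A.Approximates 1 := by
  refine ⟨@RandAlg.mk n (n * n) Unit ⊤ (@Measure.dirac Unit ⊤ ()) (by
    letI : MeasurableSpace Unit := ⊤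
    exact Measure.dirac.isProbabilityMeasure) (fun _ => storeAlg n), ?_⟩
  intro G f hf l hl hG
  refine ⟨Set.univ, MeasurableSet.univ, ?_, ?_⟩
  · have : (2 / 3 : ENNReal) ≤ 1 := by
      apply ENNReal.div_le_of_le_mul
      norm_num
    refine le_trans this (le_of_eq ?_)
    letI : MeasurableSpace Unit := ⊤
    exact (measure_univ (μ := Measure.dirac ())).symm
  · intro ω _
    simp only
    have hrun := storeAlg_run f l 0 ∅ (storeAlg n).init
    have hinit : stored (storeAlg n).init = ∅ := by simp [stored, storeAlg]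
    rw [hinit, Finset.empty_union] at hrun
    have hb := best_spec l.toFinset (oracle f l.toFinset)
    have hres : (storeAlg n).result f l = best l.toFinset (oracle f l.toFinset) := by
      unfold DetAlg.result
      change best (stored ((storeAlg n).run f 0 ∅ (storeAlg n).init l)) _ = _
      rw [hrun]
    unfold DetAlg.Succeeds
    rw [hres]
    have hval : ∀ M ⊆ l.toFinset, (oracle f l.toFinset M).getD 0 = f M := by
      intro M hM
      simp [oracle, hM]
    refine ⟨⟨?_, hb.2.1⟩, ?_⟩
    · intro e he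
      exact (hG e).1 (List.mem_toFinset.1 (hb.1 he))
    · intro M' hM'
      have h1 : M' ⊆ l.toFinset := by
        intro e he
        exact List.mem_toFinset.2 ((hG e).2 (hM'.1 he))
      have h2 := hb.2.2 M' h1 hM'.2
      rw [hval M' h1, hval _ hb.1] at h2
      simpa using h2

end Store

/-- For every constant `1 ≤ α < 2`:
(1) there is no family of randomized one-pass streaming algorithms, one for each number `n` of
vertices, with `O(n (log n)^c)` bits of memory, that `α`-approximates maximum submodular matching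
for all graphs, all monotone submodular functions and all orders of the edges;
(2) in fact `Ω(n ^ 2)` bits of memory are needed. -/
theorem result (α : ℝ) (h1 : 1 ≤ α) (h2 : α < 2) :
    (¬ ∃ (C : ℝ) (c : ℕ) (s : ℕ → ℕ) (A : ∀ n : ℕ, RandAlg n (s n)),
      (∀ n : ℕ, 2 ≤ n → (s n : ℝ) ≤ C * n * Real.log n ^ c) ∧ ∀ n, (A n).Approximates α) ∧
    ∃ δ : ℝ, 0 < δ ∧ ∃ N : ℕ, ∀ n : ℕ, N ≤ n → ∀ (s : ℕ) (A : RandAlg n s),
      A.Approximates α → δ * (n : ℝ) ^ 2 ≤ s := by
  obtain ⟨δ, hδ, N, hN⟩ := quantitative α h1 h2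
  refine ⟨?_, δ, hδ, N, hN⟩
  rintro ⟨C, c, s, A, hs, hA⟩
  have h3 := (Real.isLittleO_pow_log_id_atTop (n := c)).comp_tendsto
    (tendsto_natCast_atTop_atTop (R := ℝ))
  have h4 := h3.bound (show 0 < δ / (2 * (|C| + 1)) by positivity)
  obtain ⟨n, hn1, hn2⟩ := (h4.and (Filter.eventually_ge_atTop (max N 2))).exists
  simp only [Function.comp_apply, id_eq, norm_pow, Real.norm_eq_abs] at hn1
  have hnN : N ≤ n := le_trans (le_max_left _ _) hn2
  have hn2' : 2 ≤ n := le_trans (le_max_right _ _) hn2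
  have hnr : (2 : ℝ) ≤ n := by exact_mod_cast hn2'
  have h5 := hN n hnN (s n) (A n) (hA n)
  have h6 := hs n hn2'
  have hlog : 0 ≤ Real.log n := Real.log_nonneg (by linarith)
  rw [abs_of_nonneg hlog, abs_of_nonneg (by linarith : (0 : ℝ) ≤ n)] at hn1
  have h7 : C * n * Real.log n ^ c ≤ |C| * n * (δ / (2 * (|C| + 1)) * n) := by
    have h8 : 0 ≤ Real.log n ^ c := pow_nonneg hlog c
    calc C * n * Real.log n ^ c ≤ |C| * n * Real.log n ^ c := by
          gcongr
          exact le_abs_self C
      _ ≤ _ := by gcongr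
  have h8 : |C| * n * (δ / (2 * (|C| + 1)) * n) ≤ δ / 2 * (n : ℝ) ^ 2 := by
    have h9 : |C| / (|C| + 1) ≤ 1 := by
      rw [div_le_one (by positivity)]; linarith
    calc |C| * n * (δ / (2 * (|C| + 1)) * n) = (|C| / (|C| + 1)) * (δ / 2 * (n : ℝ) ^ 2) := by
          field_simp
      _ ≤ 1 * (δ / 2 * (n : ℝ) ^ 2) := by gcongr
      _ = _ := one_mul _
  have h9 : δ * (n : ℝ) ^ 2 ≤ δ / 2 * (n : ℝ) ^ 2 := by linarith
  have h10 : 0 < δ * (n : ℝ) ^ 2 := by positivity
  linarith

end Pool.Agent.Results.MP_eef58c_lc.MSMLowerBoundTwo
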